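import Pool.Agent.Helper90.UN.Goals

/-!
PROJECT UN (MP_d3128a_ag): goal ROW, the rows of the triangle.
-/

set_option autoImplicit false

noncomputable section

namespace Pool.Agent.Helper44.UN.ROW

open Pool.Agent.Helper90.UN Pool.Agent.Helper97.Nag

/-- the levels of the row `X` -/
def JX (d : ℕ) (rho : ℝ) (X : ℤ) : Finset ℕ :=
  @Finset.filter ℕ (fun j => InT d rho j X) (Classical.decPred _) (Finset.range (d + 1))

lemma mem_JX {d : ℕ} {rho : ℝ} {X : ℤ} {j : ℕ} : j ∈ JX d rho X ↔ InT d rho j X := by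
  unfold JX
  classical
  rw [Finset.mem_filter, Finset.mem_range]
  constructor
  · exact fun h => h.2
  · intro h
    refine ⟨?_, h⟩
    rcases h with h | h
    · have := h.1
      omega
    · have := h.1
      omega

lemma card_row {d : ℕ} {rho : ℝ} {S : Finset (ℤ × ℤ)} (hT : IsT d rho S) (X : ℤ) :
    (S.filter fun q => q.2 = X).card = (JX d rho X).card := by
  have h : (S.filter fun q => q.2 = X) = (JX d rho X).image fun j : ℕ => ((j : ℤ), X) := by
    ext q
    rw [Finset.mem_filter, Finset.mem_image, hT q]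
    constructor
    · rintro ⟨⟨j, hj, hI⟩, hX⟩
      refine ⟨j, ?_, ?_⟩
      · rw [mem_JX, ← hX]
        exact hI
      · rw [← hj, ← hX]
    · rintro ⟨j, hj, rfl⟩
      rw [mem_JX] at hj
      exact ⟨⟨j, rfl, hj⟩, rfl⟩
  rw [h, Finset.card_image_of_injective]
  intro a b hab
  have h1 : ((a : ℤ)) = (b : ℤ) := congrArg Prod.fst hab
  exact_mod_cast h1

lemma mem_lnv {d s : ℕ} {rho : ℝ} {S : Finset (ℤ × ℤ)} (hT : IsT d rho S) (hs : 1 ≤ s) (X : ℤ) :
    X ∈ lnv S s ↔ s ≤ (JX d rho X).card := by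
  unfold lnv
  rw [Finset.mem_filter, card_row hT]
  constructor
  · exact fun h => h.2
  · intro h
    refine ⟨?_, h⟩
    have h1 : 0 < (S.filter fun q => q.2 = X).card := by
      rw [card_row hT]
      omega
    obtain ⟨q, hq⟩ := Finset.card_pos.mp h1
    rw [Finset.mem_filter] at hq
    exact Finset.mem_image.mpr ⟨q, hq.1, hq.2⟩

lemma ne_int {rho : ℝ} (hirr : Irrational rho) (m X : ℤ) (hm : m ≠ 0) :
    (rho + 9) * ((m : ℝ) / 3) ≠ X := by
  intro h
  have h1 : Irrational (rho + (9 : ℤ)) := hirr.add_intCast 9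
  have h2 : Irrational ((rho + (9 : ℤ)) * (m : ℤ)) := h1.mul_intCast hm
  have h3 : (rho + (9 : ℤ)) * (m : ℤ) = ((3 * X : ℤ) : ℝ) := by
    push_cast
    rw [← h]
    ring
  exact h2.ne_int _ h3

/-- the lower end -/
def aa (d s : ℕ) (rho : ℝ) (i : ℕ) : ℝ :=
  max ((rho + 9) * ((d : ℝ) / 3 - s - i)) (rho * ((d : ℝ) / 3 - i))

/-- the upper end -/
def bb (d s : ℕ) (rho : ℝ) (i : ℕ) : ℝ := (rho + 9) * ((d : ℝ) / 3 - s + 1 - i)

/-- the index set -/
def ix (d s : ℕ) (rho : ℝ) : Finset ℕ := (Finset.range (d + 1)).filter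
  (fun i : ℕ => (rho + 9) * ((s : ℝ) - 1) < 9 * ((d : ℝ) / 3 - i))

/-- the block -/
def BB (d s : ℕ) (rho : ℝ) (i : ℕ) : Finset ℤ := Finset.Ioc ⌊aa d s rho i⌋ ⌊bb d s rho i⌋

lemma mem_ix {d s : ℕ} {rho : ℝ} {i : ℕ} : i ∈ ix d s rho ↔
    i < d + 1 ∧ (rho + 9) * ((s : ℝ) - 1) < 9 * ((d : ℝ) / 3 - i) := by
  unfold ix
  rw [Finset.mem_filter, Finset.mem_range]

lemma mem_BB {d s : ℕ} {rho : ℝ} {i : ℕ} {X : ℤ} : X ∈ BB d s rho i ↔
    (rho + 9) * ((d : ℝ) / 3 - s - i) < X ∧ rho * ((d : ℝ) / 3 - i) < X ∧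
      (X : ℝ) ≤ (rho + 9) * ((d : ℝ) / 3 - s + 1 - i) := by
  unfold BB aa bb
  rw [Finset.mem_Ioc, Int.floor_lt, Int.le_floor, max_lt_iff, and_assoc]

lemma aa_le {d s : ℕ} {rho : ℝ} {i : ℕ} (hρ : 0 < rho) (hi : i ∈ ix d s rho) :
    aa d s rho i ≤ bb d s rho i := by
  rw [mem_ix] at hi
  unfold aa bb
  apply max_le
  · nlinarith
  · nlinarith [hi.2]

lemma card_BB {d s : ℕ} {rho : ℝ} {i : ℕ} (hρ : 0 < rho) (hi : i ∈ ix d s rho) :
    ((BB d s rho i).card : ℤ) = ⌊bb d s rho i⌋ - ⌊aa d s rho i⌋ := by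
  unfold BB
  rw [Int.card_Ioc]
  have := Int.floor_le_floor (aa_le hρ hi)
  omega

lemma pos_of_ix {d s : ℕ} {rho : ℝ} {i : ℕ} (hρ : 0 < rho) (hs : 1 ≤ s) (hi : i ∈ ix d s rho) :
    0 < (d : ℝ) / 3 - s + 1 - i := by
  rw [mem_ix] at hi
  have h1 : (1 : ℝ) ≤ s := by exact_mod_cast hs
  have h2 : 9 * ((s : ℝ) - 1) ≤ (rho + 9) * ((s : ℝ) - 1) := by nlinarith
  linarith [hi.2]

lemma lt_of_mem_BB {d s : ℕ} {rho : ℝ} {i : ℕ} {X : ℤ} (hρ : 0 < rho) (hirr : Irrational rho)
    (hs : 1 ≤ s) (hi : i ∈ ix d s rho) (hX : X ∈ BB d s rho i) :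
    (X : ℝ) < (rho + 9) * ((d : ℝ) / 3 - s + 1 - i) := by
  rw [mem_BB] at hX
  refine lt_of_le_of_ne hX.2.2 ?_
  intro h
  have hp := pos_of_ix hρ hs hi
  have h1 : (((d : ℤ) - 3 * s + 3 - 3 * i : ℤ) : ℝ) / 3 = (d : ℝ) / 3 - s + 1 - i := by
    push_cast
    ring
  refine ne_int hirr ((d : ℤ) - 3 * s + 3 - 3 * i) X ?_ ?_
  · intro h0
    rw [h0] at h1
    push_cast at h1
    linarith
  · rw [h1, h]

lemma le_card_of_mem {d s : ℕ} {rho : ℝ} {i : ℕ} {X : ℤ} (hρ : 0 < rho) (hirr : Irrational rho)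
    (hs : 1 ≤ s) (hi : i ∈ ix d s rho) (hX : X ∈ BB d s rho i) :
    s ≤ (JX d rho X).card := by
  have hlt := lt_of_mem_BB hρ hirr hs hi hX
  have hp := pos_of_ix hρ hs hi
  rw [mem_BB] at hX
  have hsub : (Finset.range s).image (fun k => i + k) ⊆ JX d rho X := by
    intro j hj
    rw [Finset.mem_image] at hj
    obtain ⟨k, hk, rfl⟩ := hj
    rw [Finset.mem_range] at hk
    rw [mem_JX]
    have hk' : (k : ℝ) + 1 ≤ s := by exact_mod_cast hk
    have hk0 : (0 : ℝ) ≤ k := Nat.cast_nonneg k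
    have hpk : 0 < (d : ℝ) / 3 - ((i + k : ℕ) : ℝ) := by
      push_cast
      linarith
    refine Or.inl ⟨?_, ?_, ?_⟩
    · have h3 : 3 * ((i + k : ℕ) : ℝ) < d := by linarith
      exact_mod_cast h3
    · push_cast
      have : rho * ((d : ℝ) / 3 - (i + k)) ≤ rho * ((d : ℝ) / 3 - i) :=
        mul_le_mul_of_nonneg_left (by linarith) hρ.le
      linarith [hX.2.1]
    · push_cast
      have : (rho + 9) * ((d : ℝ) / 3 - s + 1 - i) ≤ (rho + 9) * ((d : ℝ) / 3 - (i + k)) :=
        mul_le_mul_of_nonneg_left (by linarith) (by linarith)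
      linarith
  calc s = ((Finset.range s).image (fun k => i + k)).card := by
        rw [Finset.card_image_of_injective _ (add_right_injective i), Finset.card_range]
    _ ≤ _ := Finset.card_le_card hsub

lemma ex_of_le_card {d s : ℕ} {rho : ℝ} {X : ℤ} (hρ : 0 < rho) (hirr : Irrational rho)
    (hs : 1 ≤ s) (hX0 : X ≠ 0) (hc : s ≤ (JX d rho X).card) :
    ∃ i ∈ ix d s rho, X ∈ BB d s rho i := by
  have hne : (JX d rho X).Nonempty := by
    rw [← Finset.card_pos]
    omega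
  set J := (JX d rho X).max' hne with hJ
  set I := (JX d rho X).min' hne with hI
  have hJm : J ∈ JX d rho X := Finset.max'_mem _ _
  have hIm : I ∈ JX d rho X := Finset.min'_mem _ _
  have hsub : JX d rho X ⊆ Finset.Icc I J := by
    intro j hj
    exact Finset.mem_Icc.mpr ⟨Finset.min'_le _ _ hj, Finset.le_max' _ _ hj⟩
  have hcard := Finset.card_le_card hsub
  rw [Nat.card_Icc] at hcard
  have hIi : I ≤ J + 1 - s := by omega
  have hsJ : s ≤ J + 1 := by omega
  obtain ⟨i, hi⟩ : ∃ i : ℕ, i + s = J + 1 := ⟨J + 1 - s, by omega⟩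
  have hIi' : I ≤ i := by omega
  have hJ1 : J + 1 ∉ JX d rho X := by
    intro h
    have := Finset.le_max' _ _ h
    omega
  rw [mem_JX] at hJm hIm hJ1
  have hJm' := hJm.resolve_right fun h => hX0 h.2
  have hIm' := hIm.resolve_right fun h => hX0 h.2
  have hJr : (i : ℝ) + s = J + 1 := by exact_mod_cast hi
  have hIr : (I : ℝ) ≤ i := by exact_mod_cast hIi'
  have h1 : rho * ((d : ℝ) / 3 - i) < X := by
    have : rho * ((d : ℝ) / 3 - i) ≤ rho * ((d : ℝ) / 3 - I) :=
      mul_le_mul_of_nonneg_left (by linarith) hρ.le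
    linarith [hIm'.2.1]
  have h2 : (X : ℝ) < (rho + 9) * ((d : ℝ) / 3 - s + 1 - i) := by
    have h := hJm'.2.2
    have e : (d : ℝ) / 3 - s + 1 - i = (d : ℝ) / 3 - J := by linarith
    rw [e]
    exact h
  have hJd : (3 : ℝ) * J < d := by exact_mod_cast hJm'.1
  have h3 : (rho + 9) * ((d : ℝ) / 3 - s - i) < X := by
    have e : (d : ℝ) / 3 - s - i = (d : ℝ) / 3 - (J + 1) := by linarith
    rw [e]
    have hX1 : rho * ((d : ℝ) / 3 - J) < X := hJm'.2.1
    have hX2 : rho * ((d : ℝ) / 3 - (J + 1)) < X := by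
      have : rho * ((d : ℝ) / 3 - (J + 1)) ≤ rho * ((d : ℝ) / 3 - J) :=
        mul_le_mul_of_nonneg_left (by linarith) hρ.le
      linarith
    by_cases hd : 3 * (J + 1) < d
    · have h4 : ¬ ((X : ℝ) < (rho + 9) * ((d : ℝ) / 3 - ((J + 1 : ℕ) : ℝ))) := by
        intro h
        apply hJ1
        refine Or.inl ⟨hd, ?_, h⟩
        push_cast
        exact hX2
      push_cast at h4
      rw [not_lt] at h4
      refine lt_of_le_of_ne h4 ?_
      have h5 : (((d : ℤ) - 3 * (J + 1) : ℤ) : ℝ) / 3 = (d : ℝ) / 3 - (J + 1) := by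
        push_cast
        ring
      rw [← h5]
      exact ne_int hirr _ X (by omega)
    · have h6 : (d : ℝ) ≤ 3 * (J + 1) := by exact_mod_cast not_lt.mp hd
      have h7 : (rho + 9) * ((d : ℝ) / 3 - (J + 1)) ≤ 0 :=
        mul_nonpos_of_nonneg_of_nonpos (by linarith) (by linarith)
      have h8 : 0 < rho * ((d : ℝ) / 3 - J) := mul_pos hρ (by linarith)
      linarith
  refine ⟨i, ?_, ?_⟩
  · rw [mem_ix]
    refine ⟨?_, ?_⟩
    · have := hJm'.1
      omega
    · have h9 := h1.trans h2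
      nlinarith
  · rw [mem_BB]
    exact ⟨h3, h1, h2.le⟩

lemma zero_not_mem {d s : ℕ} {rho : ℝ} {i : ℕ} (hρ : 0 < rho) (hs : 1 ≤ s) (hi : i ∈ ix d s rho) :
    (0 : ℤ) ∉ BB d s rho i := by
  intro h
  rw [mem_BB] at h
  have hp := pos_of_ix hρ hs hi
  have h1 : (1 : ℝ) ≤ s := by exact_mod_cast hs
  have h2 : 0 < rho * ((d : ℝ) / 3 - i) := mul_pos hρ (by linarith)
  have h3 := h.2.1
  push_cast at h3
  linarith

lemma zero_row {d s : ℕ} {rho : ℝ} (hρ : 0 < rho) (hs : 1 ≤ s) :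
    s ≤ (JX d rho 0).card ↔ s = 1 ∧ 3 ∣ d := by
  have h1 : ∀ j, j ∈ JX d rho 0 ↔ 3 * j = d := by
    intro j
    rw [mem_JX]
    constructor
    · rintro (h | h)
      · exfalso
        have h2 : (3 : ℝ) * j < d := by exact_mod_cast h.1
        have h3 : 0 < rho * ((d : ℝ) / 3 - j) := mul_pos hρ (by linarith)
        have h4 := h.2.1
        push_cast at h4
        linarith
      · exact h.1
    · intro h
      exact Or.inr ⟨h, rfl⟩
  by_cases hd : 3 ∣ d
  · obtain ⟨j, hj⟩ := hd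
    have h2 : JX d rho 0 = {j} := by
      ext k
      rw [h1, Finset.mem_singleton]
      omega
    rw [h2, Finset.card_singleton]
    constructor
    · intro h
      exact ⟨by omega, ⟨j, hj⟩⟩
    · intro h
      omega
  · have h2 : JX d rho 0 = ∅ := by
      rw [Finset.eq_empty_iff_forall_notMem]
      intro k hk
      rw [h1] at hk
      exact hd ⟨k, hk.symm⟩
    rw [h2, Finset.card_empty]
    constructor
    · intro h
      omega
    · intro h
      exact absurd h.2 hd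

lemma disj {d s : ℕ} {rho : ℝ} (hρ : 0 < rho) {i i' : ℕ} (h : i < i') {X : ℤ}
    (hX : X ∈ BB d s rho i) (hX' : X ∈ BB d s rho i') : False := by
  rw [mem_BB] at hX hX'
  have h1 : (i : ℝ) + 1 ≤ i' := by exact_mod_cast h
  have h2 : (rho + 9) * ((d : ℝ) / 3 - s + 1 - i') ≤ (rho + 9) * ((d : ℝ) / 3 - s - i) :=
    mul_le_mul_of_nonneg_left (by linarith) (by linarith)
  linarith [hX.1, hX'.2.2]

theorem t : S_ROW := by
  classical
  intro d s rho S hρ hirr hT hs
  have hA : lnv S s = (if s = 1 ∧ 3 ∣ d then {0} else ∅) ∪ (ix d s rho).biUnion (BB d s rho) := by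
    ext X
    rw [mem_lnv hT hs, Finset.mem_union, Finset.mem_biUnion]
    by_cases hX : X = 0
    · subst hX
      rw [zero_row hρ hs]
      constructor
      · intro h
        left
        rw [if_pos h]
        exact Finset.mem_singleton_self 0
      · rintro (h | ⟨i, hi, h⟩)
        · by_contra hn
          rw [if_neg hn] at h
          exact absurd h (Finset.notMem_empty _)
        · exact absurd h (zero_not_mem hρ hs hi)
    · constructor
      · intro h
        right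
        exact ex_of_le_card hρ hirr hs hX h
      · rintro (h | ⟨i, hi, h⟩)
        · exfalso
          by_cases hn : s = 1 ∧ 3 ∣ d
          · rw [if_pos hn, Finset.mem_singleton] at h
            exact hX h
          · rw [if_neg hn] at h
            exact absurd h (Finset.notMem_empty _)
        · exact le_card_of_mem hρ hirr hs hi h
  have hD : Disjoint (if s = 1 ∧ 3 ∣ d then ({0} : Finset ℤ) else ∅)
      ((ix d s rho).biUnion (BB d s rho)) := by
    rw [Finset.disjoint_left]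
    intro X hX hX'
    rw [Finset.mem_biUnion] at hX'
    obtain ⟨i, hi, h⟩ := hX'
    by_cases hn : s = 1 ∧ 3 ∣ d
    · rw [if_pos hn, Finset.mem_singleton] at hX
      subst hX
      exact zero_not_mem hρ hs hi h
    · rw [if_neg hn] at hX
      exact absurd hX (Finset.notMem_empty _)
  have hP : ((ix d s rho : Finset ℕ) : Set ℕ).PairwiseDisjoint (BB d s rho) := by
    intro i _ i' _ hne
    rw [Function.onFun, Finset.disjoint_left]
    intro X hX hX'
    rcases lt_or_gt_of_ne hne with h | h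
    · exact disj hρ h hX hX'
    · exact disj hρ h hX' hX
  rw [hA, Finset.card_union_of_disjoint hD, Finset.card_biUnion hP, Nat.cast_add, Nat.cast_sum]
  have h1 : (((if s = 1 ∧ 3 ∣ d then ({0} : Finset ℤ) else ∅).card : ℕ) : ℤ) =
      if s = 1 ∧ 3 ∣ d then 1 else 0 := by
    split_ifs <;> simp
  rw [h1]
  have h2 : ∑ i ∈ ix d s rho, ((BB d s rho i).card : ℤ) =
      ∑ i ∈ ix d s rho, (⌊bb d s rho i⌋ - ⌊aa d s rho i⌋) :=
    Finset.sum_congr rfl fun i hi => card_BB hρ hi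
  rw [h2]
  rfl

end Pool.Agent.Helper44.UN.ROW
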